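import Pool.Agent.W724.MZ.Eqv

/-! Project MZ, part EQV: from the discrete moments to the continuous moment. -/

set_option autoImplicit false

open MeasureTheory Set Filter Topology

namespace Pool.Agent.W724.MZ

open Pool.Agent.W188.QS Pool.Agent.W188.GP Pool.Agent.W188.MZ

/-- the moment over an interval is bounded by the discrete moments over `2M` lines -/
theorem int_le {p C T₀ : ℝ} (h3 : StTau) (hp : 0 < p) (γ : ℝ) (hC : 0 < C)
    (hc : ∀ T γ a b : ℝ, T₀ ≤ T → T / 2 ≤ a → a ≤ b → b ≤ 16 * T →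
      Real.log T * (∫ t in a..b, ZZ t ^ p) ≤
        C * (DD2 p γ (a - 2 * Real.log T) (b + 2 * Real.log T) + (b - a + 1) * T ^ (-(p / 3))))
    {M : ℕ} (hM : 1 ≤ M) {T a b : ℝ} (h4 : T₀ ≤ T / 2) (h5 : T / 4 ≤ a) (h6 : a ≤ b)
    (h7 : b ≤ 8 * T) (h8 : 2 ≤ T) (h9 : 100 ≤ a - 2 * Real.log (T / 2)) :
    Real.log (T / 2) * (Ig (ff p) b - Ig (ff p) a) ≤
      C * ((GG' p γ M (b + 2 * Real.log (T / 2)) - GG' p γ M (a - 2 * Real.log (T / 2))) +
        (b - a + 1) * (T / 2) ^ (-(p / 3))) := by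
  have hl : 0 ≤ Real.log (T / 2) := Real.log_nonneg (by linarith)
  have hfc := ff_cont hp
  rw [ig_sub hfc (by linarith) (by linarith)]
  have hM0 : (0 : ℝ) < M := by exact_mod_cast hM
  have h10 : ∀ j ∈ Finset.range M, Real.log (T / 2) * (∫ t in a..b, ff p t) ≤
      C * (DD2 p (γ + j / (2 * M : ℕ)) (a - 2 * Real.log (T / 2)) (b + 2 * Real.log (T / 2)) +
        (b - a + 1) * (T / 2) ^ (-(p / 3))) := fun j _ =>
    hc (T / 2) (γ + j / (2 * M : ℕ)) a b h4 (by linarith) h6 (by linarith)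
  have h11 := Finset.sum_le_sum h10
  rw [Finset.sum_const, Finset.card_range, nsmul_eq_mul, ← Finset.mul_sum, Finset.sum_add_distrib,
    sum_pairs p γ _ _ hM, Finset.sum_const, Finset.card_range, nsmul_eq_mul] at h11
  have h12 := gg_sub h3 p γ M (a := a - 2 * Real.log (T / 2)) (b := b + 2 * Real.log (T / 2)) h9
    (by linarith)
  have h13 : ∑ j ∈ Finset.range (2 * M), DD p (γ + j / (2 * M : ℕ)) (a - 2 * Real.log (T / 2))
      (b + 2 * Real.log (T / 2)) ≤
      M * (GG' p γ M (b + 2 * Real.log (T / 2)) - GG' p γ M (a - 2 * Real.log (T / 2))) := by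
    rw [h12]
    have h14 : 0 ≤ ∑ j ∈ Finset.range (2 * M), DD p (γ + j / (2 * M : ℕ))
        (a - 2 * Real.log (T / 2)) (b + 2 * Real.log (T / 2)) :=
      Finset.sum_nonneg fun _ _ => dd_nonneg _ _ _ _
    have h15 : (M : ℝ) * (Real.pi / M * ∑ j ∈ Finset.range (2 * M), DD p (γ + j / (2 * M : ℕ))
        (a - 2 * Real.log (T / 2)) (b + 2 * Real.log (T / 2))) =
        Real.pi * ∑ j ∈ Finset.range (2 * M), DD p (γ + j / (2 * M : ℕ))
        (a - 2 * Real.log (T / 2)) (b + 2 * Real.log (T / 2)) := by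
      field_simp
    rw [h15]
    have := Real.pi_gt_three
    nlinarith
  have h16 : (M : ℝ) * (Real.log (T / 2) * ∫ t in a..b, ff p t) ≤
      M * (C * ((GG' p γ M (b + 2 * Real.log (T / 2)) - GG' p γ M (a - 2 * Real.log (T / 2))) +
        (b - a + 1) * (T / 2) ^ (-(p / 3)))) := by
    refine h11.trans ?_
    have := mul_le_mul_of_nonneg_left h13 hC.le
    nlinarith
  exact le_of_mul_le_mul_left h16 hM0

theorem backward {p A x γ : ℝ} (h1 : StCmp) (h2 : StAvN) (h3 : StTau) (hp : 0 < p) (hA : 0 ≤ A)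
    (hR : ∀ ε : ℝ, 0 < ε → ∃ M₀ : ℕ, ∀ M : ℕ, M₀ ≤ M → ∀ᶠ T : ℝ in atTop,
      |GG' p γ M T / Qf (A + 1) T - x| ≤ ε) :
    Tendsto (fun T => Ig (ff p) T / Qf A T) atTop (𝓝 x) := by
  rw [wt_iff h3 hp hA]
  obtain ⟨C, T₀, hC, hE⟩ := h2 p hp
  obtain ⟨C₁, T₁, hC₁, hcmp⟩ := h1 p hp
  have hc := fun T γ a b h4 h5 h6 h7 => (hcmp T γ a b h4 h5 h6 h7).1
  have hA1 : (0 : ℝ) ≤ A + 1 := by linarith
  -- the discrete moments at nearby points
  have hG : ∀ {ε : ℝ} {M : ℕ}, (∀ᶠ T : ℝ in atTop, |GG' p γ M T / Qf (A + 1) T - x| ≤ ε) →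
      ∀ {c : ℝ}, 0 < c → ∀ d : ℝ, ∀ᶠ T : ℝ in atTop,
      GG' p γ M (c * T + d * Real.log (T / 2)) ≤
        (x + ε) * Qf (A + 1) (c * T + d * Real.log (T / 2)) ∧
      (x - ε) * Qf (A + 1) (c * T + d * Real.log (T / 2)) ≤
        GG' p γ M (c * T + d * Real.log (T / 2)) := by
    intro ε M h c hcp d
    have h4 := v_tendsto hcp (v_ratio c d)
    filter_upwards [h4.eventually h, h4.eventually_gt_atTop 1] with T h5 h6
    have hq := qf_pos (m := A + 1) h6
    rw [abs_le] at h5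
    obtain ⟨h7, h8⟩ := h5
    constructor
    · have : GG' p γ M (c * T + d * Real.log (T / 2)) /
        Qf (A + 1) (c * T + d * Real.log (T / 2)) ≤ x + ε := by linarith
      rwa [div_le_iff₀ hq] at this
    · have : x - ε ≤ GG' p γ M (c * T + d * Real.log (T / 2)) /
        Qf (A + 1) (c * T + d * Real.log (T / 2)) := by linarith
      rwa [le_div_iff₀ hq] at this
  -- the big integral
  obtain ⟨B, hB0, hB⟩ : ∃ B : ℝ, 0 < B ∧ ∀ᶠ T : ℝ in atTop,
      Real.log (T / 2) * (Ig (ff p) (1 * T + 4 * Real.log (T / 2)) -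
        Ig (ff p) (1 / 2 * T + (-4) * Real.log (T / 2))) ≤ B * Qf (A + 1) T := by
    obtain ⟨M₀, hM₀⟩ := hR 1 one_pos
    have hM1 := hM₀ (max M₀ 1) (le_max_left _ _)
    have h4 := hG hM1 one_pos 6
    have h5 := (qf_ratio (A + 1) one_pos (v_ratio 1 6)).eventually
      (gt_mem_nhds (show (1 : ℝ) < 2 by norm_num))
    have h6 := tail_small (m := A + 1) (q := p / 3) (δ := 1) hA1 (by positivity) one_pos
    refine ⟨C₁ * ((|x| + 1) * 2 + 1), by positivity, ?_⟩
    filter_upwards [h4, h5, h6, ev_ge (c := 1 / 2) (by norm_num) (-6) 100,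
      eventually_ge_atTop (2 * T₁), eventually_ge_atTop 2, ev_ge (c := 1 / 4) (by norm_num) (-4) 0,
      ev_ge (c := 1 / 2) (by norm_num) (-8) 1] with T e1 e2 e3 e4 e5 e6 e7 e8
    have hl : 0 ≤ Real.log (T / 2) := Real.log_nonneg (by linarith)
    have hq := qf_pos (m := A + 1) (show 1 < T by linarith)
    have e9 := int_le h3 hp γ hC₁ hc (M := max M₀ 1) (le_max_right _ _) (T := T)
      (a := 1 / 2 * T + (-4) * Real.log (T / 2)) (b := 1 * T + 4 * Real.log (T / 2))
      (by linarith) (by linarith) (by linarith) (by linarith) e6 (by linarith)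
    refine e9.trans ?_
    rw [mul_assoc]
    refine mul_le_mul_of_nonneg_left ?_ hC₁.le
    have f1 : (1 : ℝ) * T + 4 * Real.log (T / 2) + 2 * Real.log (T / 2) =
      1 * T + 6 * Real.log (T / 2) := by ring
    have f2 := gg_nonneg p γ (max M₀ 1)
      (1 / 2 * T + (-4) * Real.log (T / 2) - 2 * Real.log (T / 2))
    have f3 : Qf (A + 1) (1 * T + 6 * Real.log (T / 2)) ≤ 2 * Qf (A + 1) T := by
      rw [div_lt_iff₀ hq] at e2
      exact e2.le
    have f4 : 0 ≤ Qf (A + 1) (1 * T + 6 * Real.log (T / 2)) := qf_nonneg (by linarith)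
    have f5 : (x + 1) * Qf (A + 1) (1 * T + 6 * Real.log (T / 2)) ≤
        (|x| + 1) * 2 * Qf (A + 1) T := by
      have g1 : x + 1 ≤ |x| + 1 := by linarith [le_abs_self x]
      have g2 : 0 ≤ |x| + 1 := by positivity
      calc (x + 1) * Qf (A + 1) (1 * T + 6 * Real.log (T / 2)) ≤
            (|x| + 1) * Qf (A + 1) (1 * T + 6 * Real.log (T / 2)) :=
              mul_le_mul_of_nonneg_right g1 f4
        _ ≤ (|x| + 1) * (2 * Qf (A + 1) T) := mul_le_mul_of_nonneg_left f3 g2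
        _ = (|x| + 1) * 2 * Qf (A + 1) T := by ring
    have f6 : (1 * T + 4 * Real.log (T / 2) - (1 / 2 * T + (-4) * Real.log (T / 2)) + 1) *
        (T / 2) ^ (-(p / 3)) ≤ 1 * Qf (A + 1) T := by
      refine le_trans ?_ e3
      exact mul_le_mul_of_nonneg_right (by linarith) (by positivity)
    rw [f1]
    have f7 := e1.1
    nlinarith
  -- the short integrals
  have hedge : ∀ {ε : ℝ} {M : ℕ}, 0 < ε → 1 ≤ M →
      (∀ᶠ T : ℝ in atTop, |GG' p γ M T / Qf (A + 1) T - x| ≤ ε) → ∀ {c : ℝ}, 1 / 2 ≤ c → c ≤ 1 →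
      ∀ᶠ T : ℝ in atTop, Real.log (T / 2) * (Ig (ff p) (c * T + 4 * Real.log (T / 2)) -
        Ig (ff p) (c * T + (-4) * Real.log (T / 2))) ≤ 4 * C₁ * ε * Qf (A + 1) T := by
    intro ε M hε hM h c hc1 hc2
    have hc0 : 0 < c := by linarith
    have h4 := hG h hc0 6
    have h5 := hG h hc0 (-6)
    have h6 : Tendsto (fun T : ℝ => (x + ε) * (Qf (A + 1) (c * T + 6 * Real.log (T / 2)) /
        Qf (A + 1) T) - (x - ε) * (Qf (A + 1) (c * T + (-6) * Real.log (T / 2)) /
        Qf (A + 1) T)) atTop (𝓝 ((x + ε) * c - (x - ε) * c)) :=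
      (tendsto_const_nhds.mul (qf_ratio (A + 1) hc0 (v_ratio c 6))).sub
        (tendsto_const_nhds.mul (qf_ratio (A + 1) hc0 (v_ratio c (-6))))
    have h7 := h6.eventually (gt_mem_nhds (show (x + ε) * c - (x - ε) * c < 3 * ε by nlinarith))
    have h8 := tail_small (m := A + 1) (q := p / 3) (δ := ε) hA1 (by positivity) hε
    filter_upwards [h4, h5, h7, h8, ev_ge (c := 1 / 2) (by norm_num) (-6) 100,
      eventually_ge_atTop (2 * T₁), eventually_ge_atTop 2, ev_ge (c := 1 / 4) (by norm_num) (-4) 0,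
      ev_ge (c := 1 / 2) (by norm_num) (-8) 1] with T e1 e1' e2 e3 e4 e5 e6 e7 e8
    have hl : 0 ≤ Real.log (T / 2) := Real.log_nonneg (by linarith)
    have hq := qf_pos (m := A + 1) (show 1 < T by linarith)
    have hT2 : 1 / 2 * T ≤ c * T := mul_le_mul_of_nonneg_right hc1 (by linarith)
    have hT3 : c * T ≤ 1 * T := mul_le_mul_of_nonneg_right hc2 (by linarith)
    have e9 := int_le h3 hp γ hC₁ hc (M := M) hM (T := T)
      (a := c * T + (-4) * Real.log (T / 2)) (b := c * T + 4 * Real.log (T / 2))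
      (by linarith) (by linarith) (by linarith) (by linarith) e6 (by linarith)
    refine e9.trans ?_
    rw [show 4 * C₁ * ε * Qf (A + 1) T = C₁ * (4 * ε * Qf (A + 1) T) by ring]
    refine mul_le_mul_of_nonneg_left ?_ hC₁.le
    have f1 : c * T + 4 * Real.log (T / 2) + 2 * Real.log (T / 2) =
      c * T + 6 * Real.log (T / 2) := by ring
    have f2 : c * T + (-4) * Real.log (T / 2) - 2 * Real.log (T / 2) =
      c * T + (-6) * Real.log (T / 2) := by ring
    have f3 : (c * T + 4 * Real.log (T / 2) - (c * T + (-4) * Real.log (T / 2)) + 1) *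
        (T / 2) ^ (-(p / 3)) ≤ ε * Qf (A + 1) T := by
      refine le_trans ?_ e3
      exact mul_le_mul_of_nonneg_right (by linarith) (by positivity)
    have f4 : (x + ε) * Qf (A + 1) (c * T + 6 * Real.log (T / 2)) -
        (x - ε) * Qf (A + 1) (c * T + (-6) * Real.log (T / 2)) ≤ 3 * ε * Qf (A + 1) T := by
      have := (mul_lt_mul_of_pos_right e2 hq).le
      refine le_trans (le_of_eq ?_) this
      field_simp
    rw [f1, f2]
    have f5 := e1.1
    have f6 := e1'.2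
    linarith
  -- conclusion
  rw [Metric.tendsto_nhds]
  intro η hη
  set K : ℝ := 2 * Real.pi * C with hK
  have hK0 : 0 < K := by positivity
  set ε : ℝ := η / (4 * (1 + 3 * K * (8 * C₁ + 1))) with hε
  have hden : 0 < 4 * (1 + 3 * K * (8 * C₁ + 1)) := by positivity
  have hε0 : 0 < ε := by positivity
  have hε1 : ε * (4 * (1 + 3 * K * (8 * C₁ + 1))) = η := div_mul_cancel₀ _ hden.ne'
  obtain ⟨M₀, hM₀⟩ := hR ε hε0
  obtain ⟨M₁, hM₁1, hM₁⟩ := pow_small hp (K := 3 * K * B) (η := η / 4) (by positivity)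
  set M : ℕ := max M₀ M₁ with hM
  have hM1 : 1 ≤ M := hM₁1.trans (le_max_right _ _)
  have hGM := hM₀ M (le_max_left _ _)
  have hpow := hM₁ M (le_max_right _ _)
  set θ : ℝ := ((2 * M : ℕ) : ℝ) ^ (-(min 1 p)) with hθ
  have hθ0 : 0 < θ := Real.rpow_pos_of_pos (by
    have : 0 < 2 * M := by omega
    exact_mod_cast this) _
  have hstep := step h3 hp γ hE hM1
  have htail := tail_small (m := A + 1) (q := p / 4) (δ := ε) hA1 (by positivity) hε0
  have hΔ : ∀ᶠ T : ℝ in atTop, |(GG' p γ M T - Ig (fun t => ff p t * lamE t) T) -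
      (GG' p γ M (T / 2) - Ig (fun t => ff p t * lamE t) (T / 2))| ≤
      (K * (θ * B + (8 * C₁ + 1) * ε)) * Qf (A + 1) T := by
    filter_upwards [hB, hedge hε0 hM1 hGM (c := 1 / 2) le_rfl (by norm_num),
      hedge hε0 hM1 hGM (c := 1) (by norm_num) le_rfl, htail, hstep, err_eq hp (2 * M),
      eventually_ge_atTop 2] with T e1 e2 e3 e4 e5 e6 e7
    refine e5.trans ?_
    rw [e6, ← hK, ← hθ, mul_assoc K]
    refine mul_le_mul_of_nonneg_left ?_ hK0.le
    have f1 : (T - T / 2 + 1) * (T / 2) ^ (-(p / 4)) ≤ ε * Qf (A + 1) T := by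
      refine le_trans ?_ e4
      exact mul_le_mul_of_nonneg_right (by linarith) (by positivity)
    have f2 := mul_le_mul_of_nonneg_left e1 hθ0.le
    linarith
  have hδ := transfer h3 hA hp (by positivity) γ M hΔ
  filter_upwards [hδ, hGM] with T e1 e2
  rw [Real.dist_eq]
  have e3 := abs_sub_le (Ig (fun t => ff p t * lamE t) T / Qf (A + 1) T)
    (GG' p γ M T / Qf (A + 1) T) x
  rw [abs_sub_comm (Ig (fun t => ff p t * lamE t) T / Qf (A + 1) T)
    (GG' p γ M T / Qf (A + 1) T)] at e3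
  have e4 : 3 * (K * (θ * B + (8 * C₁ + 1) * ε)) + ε ≤ η / 2 := by
    have : θ * (3 * K * B) ≤ η / 4 := hpow
    have f : ε * (1 + 3 * K * (8 * C₁ + 1)) = η / 4 := by linarith
    nlinarith
  linarith

theorem mz_eqv (h1 : StCmp) (h2 : StAvN) (h3 : StTau) : Pool.Agent.W188.MZ.StEqv := by
  intro p A x γ hp hA
  rw [full_iff hp hA]
  exact ⟨fun h => forward h2 h3 hp hA h, fun h => backward h1 h2 h3 hp hA h⟩

end Pool.Agent.W724.MZ
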