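import Pool.Agent.W724.MZ.Eqv1

/-! Project MZ, part EQV. -/

set_option autoImplicit false

open MeasureTheory Set Filter Topology

namespace Pool.Agent.W724.MZ

open Pool.Agent.W188.QS Pool.Agent.W188.GP Pool.Agent.W188.MZ

/-- `T (T/2)^(-q)` is small -/
theorem tail_small {m q δ : ℝ} (hm : 0 ≤ m) (hq : 0 < q) (hδ : 0 < δ) :
    ∀ᶠ T : ℝ in atTop, T * (T / 2) ^ (-q) ≤ δ * Qf m T := by
  have h1 : Tendsto (fun T : ℝ => T / 2) atTop atTop := tendsto_id.atTop_div_const (by norm_num)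
  have h2 := (tendsto_rpow_neg_atTop hq).comp h1
  have h3 : ∀ᶠ T : ℝ in atTop, (T / 2) ^ (-q) ≤ δ := by
    have := h2.eventually (gt_mem_nhds hδ)
    filter_upwards [this] with T hT using hT.le
  filter_upwards [h3, eventually_ge_atTop (Real.exp 1)] with T h4 h5
  have h6 := le_qf hm h5
  have hT0 : 0 < T := (Real.exp_pos 1).trans_le h5
  calc T * (T / 2) ^ (-q) ≤ T * δ := mul_le_mul_of_nonneg_left h4 hT0.le
    _ = δ * T := mul_comm _ _
    _ ≤ δ * Qf m T := mul_le_mul_of_nonneg_left h6 hδ.le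

theorem ev_ge {c : ℝ} (hc : 0 < c) (d B : ℝ) :
    ∀ᶠ T : ℝ in atTop, B ≤ c * T + d * Real.log (T / 2) :=
  (v_tendsto hc (v_ratio c d)).eventually_ge_atTop B

/-- the local error estimate -/
theorem step {p C T₀ : ℝ} (h3 : StTau) (hp : 0 < p) (γ : ℝ)
    (hE : ∀ (T γ a b : ℝ) (N : ℕ), T₀ ≤ T → T ≤ a → a ≤ b → b ≤ 8 * T → 1 ≤ N →
      |1 / (N : ℝ) * (∑ j ∈ Finset.range N, DD p (γ + j / N) a b) -
        1 / (2 * Real.pi) * ∫ t in a..b, ZZ t ^ p * lamE t| ≤ C * Err p N T a b)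
    {M : ℕ} (hM : 1 ≤ M) :
    ∀ᶠ T : ℝ in atTop, |(GG' p γ M T - Ig (fun t => ff p t * lamE t) T) -
      (GG' p γ M (T / 2) - Ig (fun t => ff p t * lamE t) (T / 2))| ≤
      2 * Real.pi * C * Err p (2 * M) (T / 2) (T / 2) T := by
  have hg : Continuous fun t => ff p t * lamE t := (ff_cont hp).mul h3.2.2.1
  filter_upwards [eventually_ge_atTop (2 * T₀), eventually_ge_atTop 200] with T hT1 hT2
  have h4 := hE (T / 2) γ (T / 2) T (2 * M) (by linarith) le_rfl (by linarith) (by linarith)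
    (by omega)
  have h5 := gg_sub h3 p γ M (a := T / 2) (b := T) (by linarith) (by linarith)
  have h6 := ig_sub hg (a := T / 2) (b := T) (by linarith) (by linarith)
  have hM0 : (0 : ℝ) < M := by exact_mod_cast hM
  have e : (GG' p γ M T - Ig (fun t => ff p t * lamE t) T) -
      (GG' p γ M (T / 2) - Ig (fun t => ff p t * lamE t) (T / 2)) =
      2 * Real.pi * (1 / ((2 * M : ℕ) : ℝ) *
        (∑ j ∈ Finset.range (2 * M), DD p (γ + j / (2 * M : ℕ)) (T / 2) T) -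
        1 / (2 * Real.pi) * ∫ t in (T / 2)..T, ZZ t ^ p * lamE t) := by
    have e1 : (GG' p γ M T - Ig (fun t => ff p t * lamE t) T) -
      (GG' p γ M (T / 2) - Ig (fun t => ff p t * lamE t) (T / 2)) =
      (GG' p γ M T - GG' p γ M (T / 2)) -
        (Ig (fun t => ff p t * lamE t) T - Ig (fun t => ff p t * lamE t) (T / 2)) := by ring
    rw [e1, h5, h6]
    unfold ff
    push_cast
    field_simp
  rw [e, abs_mul, abs_of_pos (by positivity : 0 < 2 * Real.pi), mul_assoc (2 * Real.pi)]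
  exact mul_le_mul_of_nonneg_left h4 (by positivity)

/-- the error term in terms of the moment -/
theorem err_eq {p : ℝ} (hp : 0 < p) (N : ℕ) :
    ∀ᶠ T : ℝ in atTop, Err p N (T / 2) (T / 2) T =
      (N : ℝ) ^ (-(min 1 p)) * (Real.log (T / 2) * (Ig (ff p) (1 * T + 4 * Real.log (T / 2)) -
        Ig (ff p) (1 / 2 * T + (-4) * Real.log (T / 2)))) +
      Real.log (T / 2) * (Ig (ff p) (1 / 2 * T + 4 * Real.log (T / 2)) -
        Ig (ff p) (1 / 2 * T + (-4) * Real.log (T / 2))) +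
      Real.log (T / 2) * (Ig (ff p) (1 * T + 4 * Real.log (T / 2)) -
        Ig (ff p) (1 * T + (-4) * Real.log (T / 2))) +
      (T - T / 2 + 1) * (T / 2) ^ (-(p / 4)) := by
  filter_upwards [ev_ge (c := 1) one_pos 4 100, ev_ge (c := 1) one_pos (-4) 100,
    ev_ge (c := 1 / 2) (by norm_num) 4 100, ev_ge (c := 1 / 2) (by norm_num) (-4) 100]
    with T h1 h2 h3 h4
  have hc := ff_cont hp
  rw [ig_sub hc h4 h1, ig_sub hc h4 h3, ig_sub hc h2 h1]
  unfold Err ff
  have e1 : (1 : ℝ) * T + 4 * Real.log (T / 2) = T + 4 * Real.log (T / 2) := by ring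
  have e2 : (1 : ℝ) * T + (-4) * Real.log (T / 2) = T - 4 * Real.log (T / 2) := by ring
  have e3 : (1 / 2 : ℝ) * T + 4 * Real.log (T / 2) = T / 2 + 4 * Real.log (T / 2) := by ring
  have e4 : (1 / 2 : ℝ) * T + (-4) * Real.log (T / 2) = T / 2 - 4 * Real.log (T / 2) := by ring
  rw [e1, e2, e3, e4]
  ring

/-- passing from `G` to `V` and back -/
theorem transfer {p A δ : ℝ} (h3 : StTau) (hA : 0 ≤ A) (hp : 0 < p) (hδ : 0 < δ) (γ : ℝ)
    (M : ℕ)
    (h : ∀ᶠ T : ℝ in atTop, |(GG' p γ M T - Ig (fun t => ff p t * lamE t) T) -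
      (GG' p γ M (T / 2) - Ig (fun t => ff p t * lamE t) (T / 2))| ≤ δ * Qf (A + 1) T) :
    ∀ᶠ T : ℝ in atTop, |GG' p γ M T / Qf (A + 1) T -
      Ig (fun t => ff p t * lamE t) T / Qf (A + 1) T| ≤ 3 * δ := by
  have hg : Continuous fun t => ff p t * lamE t := (ff_cont hp).mul h3.2.2.1
  have hg0 : ∀ t, 0 ≤ ff p t * lamE t := fun t =>
    mul_nonneg (ff_nonneg p t) (by linarith [h3.2.2.2.1 t])
  have h4 := dyadic (m := A + 1) (by linarith) hδ
    (fun T => GG' p γ M T - Ig (fun t => ff p t * lamE t) T) ?_ h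
  · filter_upwards [h4, eventually_gt_atTop 1] with T h5 h6
    have hq := qf_pos (m := A + 1) h6
    rw [← sub_div, abs_div, abs_of_pos hq, div_le_iff₀ hq]
    exact h5
  · intro a b
    refine ⟨GG' p γ M b + Ig (fun t => ff p t * lamE t) b, fun t _ ht => ?_⟩
    have e1 := gg_mono h3 p γ M ht
    have e2 := ig_mono hg hg0 ht
    have e3 := gg_nonneg p γ M t
    have e4 := ig_nonneg hg0 t
    rw [abs_le]
    constructor <;> linarith

theorem lim_int {p A x : ℝ} (hI : Tendsto (fun T => Ig (ff p) T / Qf A T) atTop (𝓝 x))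
    {c₁ c₂ : ℝ} (hc₁ : 0 < c₁) (hc₂ : 0 < c₂) (d₁ d₂ : ℝ) :
    Tendsto (fun T : ℝ => Real.log (T / 2) * (Ig (ff p) (c₁ * T + d₁ * Real.log (T / 2)) -
      Ig (ff p) (c₂ * T + d₂ * Real.log (T / 2))) / Qf (A + 1) T) atTop (𝓝 (x * (c₁ - c₂))) := by
  have key : ∀ {c : ℝ}, 0 < c → ∀ d : ℝ,
      Tendsto (fun T : ℝ => Ig (ff p) (c * T + d * Real.log (T / 2)) / Qf A T) atTop (𝓝 (x * c)) := by
    intro c hc d
    have h1 := v_tendsto hc (v_ratio c d)
    have h2 := (hI.comp h1).mul (qf_ratio A hc (v_ratio c d))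
    refine h2.congr' ?_
    filter_upwards [h1.eventually_gt_atTop 1] with T hT
    have h3 := (qf_pos (m := A) hT).ne'
    simp only [Function.comp]
    rw [div_mul_div_comm, mul_comm (Qf A (c * T + d * Real.log (T / 2))) (Qf A T),
      mul_div_mul_right _ _ h3]
  have h1 := half_log_ratio.mul ((key hc₁ d₁).sub (key hc₂ d₂))
  have e : 1 * (x * c₁ - x * c₂) = x * (c₁ - c₂) := by ring
  rw [e] at h1
  refine h1.congr' ?_
  filter_upwards [eventually_gt_atTop 1] with T hT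
  rw [qf_succ hT]
  have h2 := (qf_pos (m := A) hT).ne'
  have h3 := (Real.log_pos hT).ne'
  field_simp

theorem pow_small {p : ℝ} (hp : 0 < p) {K η : ℝ} (hη : 0 < η) :
    ∃ M₀ : ℕ, 1 ≤ M₀ ∧ ∀ M : ℕ, M₀ ≤ M → ((2 * M : ℕ) : ℝ) ^ (-(min 1 p)) * K ≤ η := by
  have h1 : Tendsto (fun M : ℕ => ((2 * M : ℕ) : ℝ)) atTop atTop := by
    have h := tendsto_natCast_atTop_atTop (R := ℝ)
    refine tendsto_atTop_mono (fun M : ℕ => ?_) h
    push_cast
    have : (0 : ℝ) ≤ M := Nat.cast_nonneg M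
    linarith
  have h2 := ((tendsto_rpow_neg_atTop (lt_min one_pos hp)).comp h1).mul_const K
  rw [zero_mul] at h2
  obtain ⟨M₀, hM₀⟩ := eventually_atTop.mp (h2.eventually (gt_mem_nhds hη))
  exact ⟨max M₀ 1, le_max_right _ _, fun M hM => (hM₀ M ((le_max_left _ _).trans hM)).le⟩

theorem forward {p A x γ : ℝ} (h2 : StAvN) (h3 : StTau) (hp : 0 < p) (hA : 0 ≤ A)
    (hI : Tendsto (fun T => Ig (ff p) T / Qf A T) atTop (𝓝 x)) :
    ∀ ε : ℝ, 0 < ε → ∃ M₀ : ℕ, ∀ M : ℕ, M₀ ≤ M → ∀ᶠ T : ℝ in atTop,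
      |GG' p γ M T / Qf (A + 1) T - x| ≤ ε := by
  intro ε hε
  obtain ⟨C, T₀, hC, hE⟩ := h2 p hp
  have hV := (wt_iff h3 hp hA).mp hI
  obtain ⟨M₀, hM₀1, hM₀⟩ := pow_small hp (K := 2 * Real.pi * C * (x * (1 - 1 / 2)))
    (η := ε / 12) (by positivity)
  refine ⟨M₀, fun M hM => ?_⟩
  have hM1 : 1 ≤ M := hM₀1.trans hM
  -- the limit of the error
  have hlim : Tendsto (fun T : ℝ => 2 * Real.pi * C *
      (((2 * M : ℕ) : ℝ) ^ (-(min 1 p)) * (Real.log (T / 2) *
        (Ig (ff p) (1 * T + 4 * Real.log (T / 2)) -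
        Ig (ff p) (1 / 2 * T + (-4) * Real.log (T / 2))) / Qf (A + 1) T) +
      Real.log (T / 2) * (Ig (ff p) (1 / 2 * T + 4 * Real.log (T / 2)) -
        Ig (ff p) (1 / 2 * T + (-4) * Real.log (T / 2))) / Qf (A + 1) T +
      Real.log (T / 2) * (Ig (ff p) (1 * T + 4 * Real.log (T / 2)) -
        Ig (ff p) (1 * T + (-4) * Real.log (T / 2))) / Qf (A + 1) T)) atTop
      (𝓝 (2 * Real.pi * C * (((2 * M : ℕ) : ℝ) ^ (-(min 1 p)) * (x * (1 - 1 / 2)) +
        x * (1 / 2 - 1 / 2) + x * (1 - 1)))) := by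
    refine tendsto_const_nhds.mul (((tendsto_const_nhds.mul (lim_int hI one_pos (by norm_num) 4 (-4))).add
      (lim_int hI (by norm_num) (by norm_num) 4 (-4))).add (lim_int hI one_pos one_pos 4 (-4)))
  have hlt : 2 * Real.pi * C * (((2 * M : ℕ) : ℝ) ^ (-(min 1 p)) * (x * (1 - 1 / 2)) +
        x * (1 / 2 - 1 / 2) + x * (1 - 1)) < ε / 8 := by
    have h4 := hM₀ M hM
    have e : 2 * Real.pi * C * (((2 * M : ℕ) : ℝ) ^ (-(min 1 p)) * (x * (1 - 1 / 2)) +
        x * (1 / 2 - 1 / 2) + x * (1 - 1)) =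
        ((2 * M : ℕ) : ℝ) ^ (-(min 1 p)) * (2 * Real.pi * C * (x * (1 - 1 / 2))) := by ring
    rw [e]
    linarith
  have hev := hlim.eventually (gt_mem_nhds hlt)
  have htail := tail_small (m := A + 1) (q := p / 4) (δ := ε / (48 * Real.pi * C)) (by linarith)
    (by positivity) (by positivity)
  have hstep := step h3 hp γ hE hM1
  have hΔ : ∀ᶠ T : ℝ in atTop, |(GG' p γ M T - Ig (fun t => ff p t * lamE t) T) -
      (GG' p γ M (T / 2) - Ig (fun t => ff p t * lamE t) (T / 2))| ≤ (ε / 6) * Qf (A + 1) T := by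
    filter_upwards [hev, htail, hstep, err_eq hp (2 * M), eventually_ge_atTop 2] with
      T e1 e2 e3 e4 e5
    have hq := qf_pos (m := A + 1) (show 1 < T by linarith)
    refine e3.trans ?_
    rw [e4]
    have e6 := (mul_lt_mul_of_pos_right e1 hq).le
    have e7 : (T - T / 2 + 1) * (T / 2) ^ (-(p / 4)) ≤ ε / (48 * Real.pi * C) * Qf (A + 1) T := by
      refine le_trans ?_ e2
      refine mul_le_mul_of_nonneg_right (by linarith) (by positivity)
    have e8 : 2 * Real.pi * C * ((T - T / 2 + 1) * (T / 2) ^ (-(p / 4))) ≤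
        ε / 24 * Qf (A + 1) T := by
      have := mul_le_mul_of_nonneg_left e7 (show 0 ≤ 2 * Real.pi * C by positivity)
      refine this.trans (le_of_eq ?_)
      field_simp
      ring
    have e9 : 2 * Real.pi * C *
      (((2 * M : ℕ) : ℝ) ^ (-(min 1 p)) * (Real.log (T / 2) *
        (Ig (ff p) (1 * T + 4 * Real.log (T / 2)) -
        Ig (ff p) (1 / 2 * T + (-4) * Real.log (T / 2))) / Qf (A + 1) T) +
      Real.log (T / 2) * (Ig (ff p) (1 / 2 * T + 4 * Real.log (T / 2)) -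
        Ig (ff p) (1 / 2 * T + (-4) * Real.log (T / 2))) / Qf (A + 1) T +
      Real.log (T / 2) * (Ig (ff p) (1 * T + 4 * Real.log (T / 2)) -
        Ig (ff p) (1 * T + (-4) * Real.log (T / 2))) / Qf (A + 1) T) * Qf (A + 1) T =
      2 * Real.pi * C *
      (((2 * M : ℕ) : ℝ) ^ (-(min 1 p)) * (Real.log (T / 2) *
        (Ig (ff p) (1 * T + 4 * Real.log (T / 2)) -
        Ig (ff p) (1 / 2 * T + (-4) * Real.log (T / 2)))) +
      Real.log (T / 2) * (Ig (ff p) (1 / 2 * T + 4 * Real.log (T / 2)) -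
        Ig (ff p) (1 / 2 * T + (-4) * Real.log (T / 2))) +
      Real.log (T / 2) * (Ig (ff p) (1 * T + 4 * Real.log (T / 2)) -
        Ig (ff p) (1 * T + (-4) * Real.log (T / 2)))) := by
      have hq' := hq.ne'
      generalize Qf (A + 1) T = q at hq' ⊢
      generalize Real.log (T / 2) = l
      field_simp
    rw [e9] at e6
    rw [mul_add (2 * Real.pi * C)]
    refine (add_le_add e6 e8).trans (le_of_eq ?_)
    ring
  have hδ := transfer h3 hA hp (by positivity) γ M hΔ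
  have hV' : ∀ᶠ T : ℝ in atTop, |Ig (fun t => ff p t * lamE t) T / Qf (A + 1) T - x| ≤ ε / 2 := by
    have := (Metric.tendsto_nhds.mp hV) (ε / 2) (by positivity)
    filter_upwards [this] with T hT
    rw [Real.dist_eq] at hT
    exact hT.le
  filter_upwards [hδ, hV'] with T e1 e2
  have := abs_sub_le (GG' p γ M T / Qf (A + 1) T)
    (Ig (fun t => ff p t * lamE t) T / Qf (A + 1) T) x
  linarith

end Pool.Agent.W724.MZ
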