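import Pool.Agent.W188.MZ.Stm

/-! Project MZ, part EQV: auxiliary facts on `T (log T)^m` and dyadic sums. -/

set_option autoImplicit false

open MeasureTheory Set Filter Topology

namespace Pool.Agent.W724.MZ

/-- `T (log T)^m` -/
noncomputable def Qf (m T : ℝ) : ℝ := T * Real.log T ^ m

theorem qf_pos {m T : ℝ} (hT : 1 < T) : 0 < Qf m T :=
  mul_pos (by linarith) (Real.rpow_pos_of_pos (Real.log_pos hT) _)

theorem qf_nonneg {m T : ℝ} (hT : 1 ≤ T) : 0 ≤ Qf m T :=
  mul_nonneg (by linarith) (Real.rpow_nonneg (Real.log_nonneg hT) _)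

theorem qf_half {m T : ℝ} (hm : 0 ≤ m) (hT : 2 ≤ T) : Qf m (T / 2) ≤ Qf m T / 2 := by
  unfold Qf
  have h1 : Real.log (T / 2) ≤ Real.log T := Real.log_le_log (by linarith) (by linarith)
  have h2 : 0 ≤ Real.log (T / 2) := Real.log_nonneg (by linarith)
  have h3 := Real.rpow_le_rpow h2 h1 hm
  nlinarith

theorem le_qf {m T : ℝ} (hm : 0 ≤ m) (hT : Real.exp 1 ≤ T) : T ≤ Qf m T := by
  unfold Qf
  have hT0 : 0 < T := (Real.exp_pos 1).trans_le hT
  have h1 : 1 ≤ Real.log T := by
    rw [Real.le_log_iff_exp_le hT0]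
    exact hT
  have h2 : 1 ≤ Real.log T ^ m := Real.one_le_rpow h1 hm
  nlinarith

theorem qf_tendsto {m : ℝ} (hm : 0 ≤ m) : Tendsto (Qf m) atTop atTop := by
  refine tendsto_atTop_mono' atTop ?_ tendsto_id
  filter_upwards [eventually_ge_atTop (Real.exp 1)] with T hT using le_qf hm hT

theorem qf_succ {m T : ℝ} (hT : 1 < T) : Qf (m + 1) T = Qf m T * Real.log T := by
  unfold Qf
  rw [Real.rpow_add (Real.log_pos hT), Real.rpow_one]
  ring

/-- if `v T / T → c` then `v T → ∞` -/
theorem v_tendsto {c : ℝ} {v : ℝ → ℝ} (hc : 0 < c)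
    (hv : Tendsto (fun T => v T / T) atTop (𝓝 c)) : Tendsto v atTop atTop := by
  have h1 : Tendsto (fun T : ℝ => v T / T * T) atTop atTop := hv.pos_mul_atTop hc tendsto_id
  refine h1.congr' ?_
  filter_upwards [eventually_gt_atTop 0] with T hT
  field_simp

theorem log_ratio {c : ℝ} {v : ℝ → ℝ} (hc : 0 < c)
    (hv : Tendsto (fun T => v T / T) atTop (𝓝 c)) :
    Tendsto (fun T => Real.log (v T) / Real.log T) atTop (𝓝 1) := by
  have h1 : Tendsto (fun T => Real.log (v T / T)) atTop (𝓝 (Real.log c)) :=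
    (Real.continuousAt_log hc.ne').tendsto.comp hv
  have h2 := h1.div_atTop Real.tendsto_log_atTop
  have h3 : Tendsto (fun T => 1 + Real.log (v T / T) / Real.log T) atTop (𝓝 (1 + 0)) :=
    tendsto_const_nhds.add h2
  rw [add_zero] at h3
  refine h3.congr' ?_
  filter_upwards [eventually_gt_atTop 1, (v_tendsto hc hv).eventually_gt_atTop 0] with T hT hvT
  have hl : Real.log T ≠ 0 := (Real.log_pos hT).ne'
  have hT0 : T ≠ 0 := by linarith
  rw [Real.log_div hvT.ne' hT0]
  field_simp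
  ring

theorem qf_ratio {c : ℝ} (m : ℝ) {v : ℝ → ℝ} (hc : 0 < c)
    (hv : Tendsto (fun T => v T / T) atTop (𝓝 c)) :
    Tendsto (fun T => Qf m (v T) / Qf m T) atTop (𝓝 c) := by
  have h1 := (log_ratio hc hv).rpow_const (p := m) (Or.inl one_ne_zero)
  rw [Real.one_rpow] at h1
  have h2 := hv.mul h1
  rw [mul_one] at h2
  refine h2.congr' ?_
  filter_upwards [eventually_gt_atTop 1, (v_tendsto hc hv).eventually_gt_atTop 1] with T hT hvT
  have hl : 0 < Real.log T := Real.log_pos hT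
  have hl2 : 0 < Real.log (v T) := Real.log_pos hvT
  rw [Real.div_rpow hl2.le hl.le]
  unfold Qf
  rw [div_mul_div_comm]

/-- the ratios `(c T + d log (T/2)) / T` -/
theorem v_ratio (c d : ℝ) : Tendsto (fun T : ℝ => (c * T + d * Real.log (T / 2)) / T) atTop (𝓝 c) := by
  have h0 : Tendsto (fun T : ℝ => Real.log T / T) atTop (𝓝 0) := by
    have := Real.isLittleO_log_id_atTop.tendsto_div_nhds_zero
    exact this
  have h1 : Tendsto (fun T : ℝ => T / 2) atTop atTop := tendsto_id.atTop_div_const (by norm_num)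
  have h2 := h0.comp h1
  have h3 : Tendsto (fun T : ℝ => c + d * (((fun T : ℝ => Real.log T / T) ∘ fun T : ℝ => T / 2) T / 2))
      atTop (𝓝 (c + d * (0 / 2))) := tendsto_const_nhds.add (tendsto_const_nhds.mul (h2.div_const 2))
  have e : c + d * (0 / 2) = c := by ring
  rw [e] at h3
  refine h3.congr' ?_
  filter_upwards [eventually_gt_atTop 0] with T hT
  simp only [Function.comp]
  field_simp

theorem half_log_ratio : Tendsto (fun T : ℝ => Real.log (T / 2) / Real.log T) atTop (𝓝 1) := by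
  refine log_ratio (c := 1 / 2) (by norm_num) ?_
  have h : Tendsto (fun _ : ℝ => (1 : ℝ) / 2) atTop (𝓝 (1 / 2)) := tendsto_const_nhds
  refine h.congr' ?_
  filter_upwards [eventually_gt_atTop 0] with T hT
  field_simp

/-- sums over dyadic scales -/
theorem dyadic {m δ : ℝ} (hm : 0 ≤ m) (hδ : 0 < δ) (H : ℝ → ℝ)
    (hloc : ∀ a b : ℝ, ∃ B : ℝ, ∀ t, a ≤ t → t ≤ b → |H t| ≤ B)
    (h : ∀ᶠ T in atTop, |H T - H (T / 2)| ≤ δ * Qf m T) :
    ∀ᶠ T in atTop, |H T| ≤ 3 * δ * Qf m T := by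
  obtain ⟨T₀, hT₀⟩ := eventually_atTop.mp h
  set T₁ : ℝ := max T₀ 2 with hT₁
  have hT12 : 2 ≤ T₁ := le_max_right _ _
  obtain ⟨B, hB⟩ := hloc (T₁ / 2) T₁
  have hB0 : 0 ≤ B := (abs_nonneg _).trans (hB T₁ (by linarith) le_rfl)
  have key : ∀ n : ℕ, ∀ T, T₁ / 2 ≤ T → T ≤ 2 ^ n * T₁ → |H T| ≤ 2 * δ * Qf m T + B := by
    intro n
    induction n with
    | zero =>
      intro T h1 h2
      have h3 := hB T h1 (by simpa using h2)
      have h4 : 0 ≤ Qf m T := qf_nonneg (by linarith)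
      have h5 : 0 ≤ 2 * δ * Qf m T := by positivity
      linarith
    | succ n ih =>
      intro T h1 h2
      have h4 : 0 ≤ Qf m T := qf_nonneg (by linarith)
      rcases le_total T T₁ with h3 | h3
      · have h5 := hB T h1 h3
        have h6 : 0 ≤ 2 * δ * Qf m T := by positivity
        linarith
      · have h5 := ih (T / 2) (by linarith) (by rw [pow_succ] at h2; linarith)
        have h6 := hT₀ T ((le_max_left _ _).trans h3)
        have h7 := qf_half hm (show 2 ≤ T by linarith)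
        have h8 : |H T| ≤ |H T - H (T / 2)| + |H (T / 2)| := by
          have := abs_add_le (H T - H (T / 2)) (H (T / 2))
          rwa [sub_add_cancel] at this
        have h9 : 2 * δ * Qf m (T / 2) ≤ δ * Qf m T := by
          have := mul_le_mul_of_nonneg_left h7 (show 0 ≤ 2 * δ by linarith)
          linarith
        linarith
  have h1 : ∀ᶠ T in atTop, B / δ ≤ Qf m T := (qf_tendsto hm).eventually_ge_atTop _
  filter_upwards [h1, eventually_ge_atTop (T₁ / 2)] with T h2 h3
  obtain ⟨n, hn⟩ := pow_unbounded_of_one_lt (T / T₁) (by norm_num : (1 : ℝ) < 2)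
  have h4 : T ≤ 2 ^ n * T₁ := by
    rw [div_lt_iff₀ (by linarith)] at hn
    exact hn.le
  have h5 := key n T h3 h4
  have h6 : B ≤ δ * Qf m T := by
    rw [div_le_iff₀ hδ] at h2
    linarith
  linarith

end Pool.Agent.W724.MZ
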