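import Pool.Agent.W724.MZ.Eqv0
import Pool.Agent.W723.QS.Wt
import Pool.Agent.W22.QS.Dyad
import Pool.Agent.W338.QS.Line

/-! Project MZ, part EQV: the functions. -/

set_option autoImplicit false

open MeasureTheory Set Filter Topology

namespace Pool.Agent.W724.MZ

open Pool.Agent.W188.QS Pool.Agent.W188.GP Pool.Agent.W188.MZ

theorem zz_cont : Continuous ZZ := by
  unfold ZZ
  refine continuous_norm.comp ?_
  rw [continuous_iff_continuousAt]
  intro t
  have h1 : cp t ≠ 1 := by
    intro h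
    have := congrArg Complex.re h
    simp [cp] at this
  have h2 : ContinuousAt cp t := by
    unfold cp
    fun_prop
  exact ContinuousAt.comp (f := cp) (differentiableAt_riemannZeta h1).continuousAt h2

theorem zz_nonneg (t : ℝ) : 0 ≤ ZZ t := norm_nonneg _

/-- the function -/
noncomputable def ff (p t : ℝ) : ℝ := ZZ t ^ p

theorem ff_cont {p : ℝ} (hp : 0 < p) : Continuous (ff p) :=
  zz_cont.rpow_const fun _ => Or.inr hp.le

theorem ff_nonneg (p t : ℝ) : 0 ≤ ff p t := Real.rpow_nonneg (zz_nonneg t) p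

/-- the integral of a function over `[100, T]` -/
noncomputable def Ig (g : ℝ → ℝ) (T : ℝ) : ℝ := ∫ t in (100 : ℝ)..(max T 100), g t

theorem ig_sub {g : ℝ → ℝ} (hg : Continuous g) {a b : ℝ} (ha : 100 ≤ a) (hb : 100 ≤ b) :
    Ig g b - Ig g a = ∫ t in a..b, g t := by
  unfold Ig
  rw [max_eq_left ha, max_eq_left hb]
  exact intervalIntegral.integral_interval_sub_left (hg.intervalIntegrable _ _)
    (hg.intervalIntegrable _ _)

theorem ig_mono {g : ℝ → ℝ} (hg : Continuous g) (hg0 : ∀ t, 0 ≤ g t) : Monotone (Ig g) := by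
  intro a b hab
  unfold Ig
  have h1 : max a 100 ≤ max b 100 := max_le_max hab le_rfl
  have h2 := intervalIntegral.integral_interval_sub_left (hg.intervalIntegrable (μ := volume) 100 (max b 100))
    (hg.intervalIntegrable 100 (max a 100))
  have h3 : 0 ≤ ∫ t in (max a 100)..(max b 100), g t :=
    intervalIntegral.integral_nonneg h1 fun t _ => hg0 t
  linarith

theorem ig_nonneg {g : ℝ → ℝ} (hg0 : ∀ t, 0 ≤ g t) (T : ℝ) : 0 ≤ Ig g T :=
  intervalIntegral.integral_nonneg (le_max_right _ _) fun t _ => hg0 t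

/-- reference: `lamE` -/
theorem lamE_lower (h3 : StTau) {T t : ℝ} (hT : 200 ≤ T) (h1 : T / 2 ≤ t) (h2 : t ≤ T) :
    Real.log T - 4 ≤ lamE t ∧ lamE t ≤ Real.log T := by
  obtain ⟨-, -, -, -, -, -, -, -, -, -, -, hl, -⟩ := h3
  have ht : 100 ≤ t := by linarith
  obtain ⟨e1, e2⟩ := hl t ht
  have h4 := (Pool.Agent.W338.QS.qs_line.1 t (by linarith)).2.1
  have h5 := (abs_le.mp h4).1
  constructor
  · rw [e1]
    have h6 : Real.log (t / (2 * Real.pi)) = Real.log t - Real.log (2 * Real.pi) :=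
      Real.log_div (by linarith) (by positivity)
    have h7 : Real.log T - Real.log 2 ≤ Real.log t := by
      rw [← Real.log_div (by linarith) (by norm_num)]
      exact Real.log_le_log (by linarith) h1
    have h8 : Real.log (2 * Real.pi) ≤ Real.log 8 :=
      Real.log_le_log (by positivity) (by linarith [Real.pi_le_four])
    have h9 : Real.log 8 = 3 * Real.log 2 := by
      rw [show (8 : ℝ) = 2 ^ 3 by norm_num, Real.log_pow]; norm_num
    have h10 := Real.log_two_lt_d9
    have h11 : 14 / t ≤ 0.14 := by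
      rw [div_le_iff₀ (by linarith)]
      linarith
    linarith
  · exact e2.trans (Real.log_le_log (by linarith) h2)

/-- the moment and the weighted moment -/
theorem wt_iff (h3 : StTau) {p A x : ℝ} (hp : 0 < p) (hA : 0 ≤ A) :
    Tendsto (fun T => Ig (ff p) T / Qf A T) atTop (𝓝 x) ↔
      Tendsto (fun T => Ig (fun t => ff p t * lamE t) T / Qf (A + 1) T) atTop (𝓝 x) := by
  have hc := ff_cont hp
  have hlc : Continuous lamE := h3.2.2.1
  have hl1 : ∀ t, 1 ≤ lamE t := h3.2.2.2.1
  have hg : Continuous fun t => ff p t * lamE t := hc.mul hlc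
  have hg0 : ∀ t, 0 ≤ ff p t * lamE t := fun t =>
    mul_nonneg (ff_nonneg p t) (by linarith [hl1 t])
  have h := Pool.Agent.W723.QS.qs_wt Pool.Agent.W22.QS.qs_dyad x A 1 200 hA one_pos (Ig (ff p))
    (Ig fun t => ff p t * lamE t) (ig_mono hc (ff_nonneg p)) (ig_mono hg hg0)
    (ig_nonneg (ff_nonneg p)) (ig_nonneg hg0) ?_
  · simp only [one_mul] at h
    exact h
  · intro T hT
    rw [ig_sub hc (by linarith) (by linarith), ig_sub hg (by linarith) (by linarith), one_mul,
      ← intervalIntegral.integral_const_mul, ← intervalIntegral.integral_const_mul]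
    constructor
    · refine intervalIntegral.integral_mono_on (by linarith)
        ((continuous_const.mul hc).intervalIntegrable _ _) (hg.intervalIntegrable _ _) fun t ht => ?_
      have := (lamE_lower h3 hT ht.1 ht.2).1
      have h0 := ff_nonneg p t
      nlinarith
    · refine intervalIntegral.integral_mono_on (by linarith)
        (hg.intervalIntegrable _ _) ((continuous_const.mul hc).intervalIntegrable _ _) fun t ht => ?_
      have := (lamE_lower h3 hT ht.1 ht.2).2
      have h0 := ff_nonneg p t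
      nlinarith

/-- the full moment -/
theorem full_iff {p A x : ℝ} (hp : 0 < p) (hA : 0 ≤ A) :
    Tendsto (fun T : ℝ => (∫ t in (0 : ℝ)..T, ZZ t ^ p) / (T * Real.log T ^ A)) atTop (𝓝 x) ↔
      Tendsto (fun T => Ig (ff p) T / Qf A T) atTop (𝓝 x) := by
  have hc := ff_cont hp
  have h1 : Tendsto (fun T : ℝ => (∫ t in (0 : ℝ)..100, ff p t) / Qf A T) atTop (𝓝 0) :=
    tendsto_const_nhds.div_atTop (qf_tendsto hA)
  have h2 : ∀ᶠ T : ℝ in atTop, (∫ t in (0 : ℝ)..T, ZZ t ^ p) / (T * Real.log T ^ A) =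
      Ig (ff p) T / Qf A T + (∫ t in (0 : ℝ)..100, ff p t) / Qf A T := by
    filter_upwards [eventually_ge_atTop 100] with T hT
    rw [← add_div]
    unfold Ig
    rw [max_eq_left hT]
    congr 1
    rw [add_comm]
    exact (intervalIntegral.integral_add_adjacent_intervals (hc.intervalIntegrable _ _)
      (hc.intervalIntegrable _ _)).symm
  rw [tendsto_congr' h2]
  constructor
  · intro h
    have h4 := h.sub h1
    rw [sub_zero] at h4
    refine h4.congr fun T => ?_
    ring
  · intro h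
    have h4 := h.add h1
    rw [add_zero] at h4
    exact h4

/-! ### the discrete moments -/

theorem dd_nonneg (p γ a b : ℝ) : 0 ≤ DD p γ a b :=
  Finset.sum_nonneg fun _ _ => Real.rpow_nonneg (zz_nonneg _) _

theorem dd_add (h3 : StTau) (p γ : ℝ) {a b c : ℝ} (hab : a ≤ b) (hbc : b ≤ c) :
    DD p γ a c = DD p γ a b + DD p γ b c := by
  have hm : Monotone vv := h3.1.monotone
  have h1 : ⌊vv a - γ⌋ ≤ ⌊vv b - γ⌋ := Int.floor_le_floor (by linarith [hm hab])
  have h2 : ⌊vv b - γ⌋ ≤ ⌊vv c - γ⌋ := Int.floor_le_floor (by linarith [hm hbc])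
  unfold DD nd
  rw [← Finset.Ioc_union_Ioc_eq_Ioc h1 h2, Finset.sum_union]
  exact Finset.Ioc_disjoint_Ioc_of_le le_rfl

theorem dd_mono (h3 : StTau) (p γ a : ℝ) : Monotone (DD p γ a) := by
  intro b c hbc
  have hm : Monotone vv := h3.1.monotone
  have h2 : ⌊vv b - γ⌋ ≤ ⌊vv c - γ⌋ := Int.floor_le_floor (by linarith [hm hbc])
  unfold DD nd
  exact Finset.sum_le_sum_of_subset_of_nonneg (Finset.Ioc_subset_Ioc_right h2)
    fun _ _ _ => Real.rpow_nonneg (zz_nonneg _) _

/-- the average over `2M` lines -/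
noncomputable def GG' (p γ : ℝ) (M : ℕ) (T : ℝ) : ℝ :=
  Real.pi / M * ∑ j ∈ Finset.range (2 * M), DD p (γ + j / (2 * M : ℕ)) 100 T

theorem gg_nonneg (p γ : ℝ) (M : ℕ) (T : ℝ) : 0 ≤ GG' p γ M T :=
  mul_nonneg (by positivity) (Finset.sum_nonneg fun _ _ => dd_nonneg _ _ _ _)

theorem gg_mono (h3 : StTau) (p γ : ℝ) (M : ℕ) : Monotone (GG' p γ M) := by
  intro a b hab
  exact mul_le_mul_of_nonneg_left (Finset.sum_le_sum fun _ _ => dd_mono h3 _ _ _ hab)
    (by positivity)

theorem gg_sub (h3 : StTau) (p γ : ℝ) (M : ℕ) {a b : ℝ} (ha : 100 ≤ a) (hab : a ≤ b) :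
    GG' p γ M b - GG' p γ M a =
      Real.pi / M * ∑ j ∈ Finset.range (2 * M), DD p (γ + j / (2 * M : ℕ)) a b := by
  unfold GG'
  rw [← mul_sub, ← Finset.sum_sub_distrib]
  congr 1
  refine Finset.sum_congr rfl fun j _ => ?_
  rw [dd_add h3 p _ ha hab]
  ring

/-- the average over `2M` lines in terms of pairs of perpendicular lines -/
theorem sum_pairs (p γ a b : ℝ) {M : ℕ} (hM : 1 ≤ M) :
    ∑ j ∈ Finset.range M, DD2 p (γ + j / (2 * M : ℕ)) a b =
      ∑ j ∈ Finset.range (2 * M), DD p (γ + j / (2 * M : ℕ)) a b := by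
  rw [two_mul M, Finset.sum_range_add, ← two_mul M, ← Finset.sum_add_distrib]
  refine Finset.sum_congr rfl fun j _ => ?_
  unfold DD2
  have hM0 : (M : ℝ) ≠ 0 := by
    have : 0 < M := hM
    positivity
  have e : γ + (j : ℝ) / ((2 * M : ℕ) : ℝ) + 1 / 2 = γ + ((M + j : ℕ) : ℝ) / ((2 * M : ℕ) : ℝ) := by
    push_cast
    field_simp
    ring
  rw [e]

end Pool.Agent.W724.MZ
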